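import Pool.Agent.Lib.H22W.Poly

/-!
# A polynomial time certificate for the procedure
-/

open Pool.Agent.PolyTime Pool.Agent.Lib.H22W

namespace Pool.Agent.Lib.H22Y

/-- The certificate at the index `j`. -/
def certj (a : List ℕ × List ℕ) (j : ℕ) : Bool :=
  decide (offn (mn (a.1 ++ a.2)) a.1 (j + 1) + offn (mn (a.1 ++ a.2)) a.2 (j + 1) <
    mn (a.1 ++ a.2) * ((offn (mn (a.1 ++ a.2)) a.1 j - offn (mn (a.1 ++ a.2)) a.2 j) +
      (offn (mn (a.1 ++ a.2)) a.2 j - offn (mn (a.1 ++ a.2)) a.1 j)))

/-- One step. -/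
def stpc (a : List ℕ × List ℕ) (s : List ℕ × Bool × Bool) (b : ℕ) : List ℕ × Bool × Bool :=
  (b :: s.1, bif s.2.1 then s.2 else
    bif decide (offn (mn (a.1 ++ a.2)) a.1 s.1.length = offn (mn (a.1 ++ a.2)) a.2 s.1.length) then
      (false, true) else (true, certj a s.1.length))

/-- The certificate: find the first index `j` less than the number of entries at which the sums of the `j`-th powers of
the differences to the least entry differ, and check that the sums of the `(j + 1)`-st powers are small. -/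
def cert (a : List ℕ × List ℕ) : Bool := ((a.1 ++ a.2).foldl (stpc a) ([], false, true)).2.2

theorem PT_stpc : PT fun p : (List ℕ × List ℕ) × (List ℕ × Bool × Bool) × ℕ => stpc p.1 p.2.1 p.2.2 := by
  have hN : PT fun p : (List ℕ × List ℕ) × (List ℕ × Bool × Bool) × ℕ => mn (p.1.1 ++ p.1.2) :=
    PT_mn (by fun_prop)
  have h1 : PT fun p : (List ℕ × List ℕ) × (List ℕ × Bool × Bool) × ℕ =>
      offn (mn (p.1.1 ++ p.1.2)) p.1.1 p.2.1.1.length := PT_offn hN (by fun_prop) (by fun_prop)
  have h2 : PT fun p : (List ℕ × List ℕ) × (List ℕ × Bool × Bool) × ℕ =>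
      offn (mn (p.1.1 ++ p.1.2)) p.1.2 p.2.1.1.length := PT_offn hN (by fun_prop) (by fun_prop)
  have h3 : PT fun p : (List ℕ × List ℕ) × (List ℕ × Bool × Bool) × ℕ =>
      offn (mn (p.1.1 ++ p.1.2)) p.1.1 (p.2.1.1.length + 1) := by
    have h := PT_offn (l := fun p : (List ℕ × List ℕ) × (List ℕ × Bool × Bool) × ℕ => p.1.1)
      (t := fun p => p.2.2 :: p.2.1.1) hN (by fun_prop) (by fun_prop)
    exact h
  have h4 : PT fun p : (List ℕ × List ℕ) × (List ℕ × Bool × Bool) × ℕ =>
      offn (mn (p.1.1 ++ p.1.2)) p.1.2 (p.2.1.1.length + 1) := by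
    have h := PT_offn (l := fun p : (List ℕ × List ℕ) × (List ℕ × Bool × Bool) × ℕ => p.1.2)
      (t := fun p => p.2.2 :: p.2.1.1) hN (by fun_prop) (by fun_prop)
    exact h
  have h5 : PT fun p : (List ℕ × List ℕ) × (List ℕ × Bool × Bool) × ℕ => certj p.1 p.2.1.1.length := by
    unfold certj
    exact PT.decide_lt (PT.add h3 h4) (PT.mul hN (PT.add (PT.sub h1 h2) (PT.sub h2 h1)))
  unfold stpc
  refine PT.pair (by fun_prop) ?_
  exact PT.bif (by fun_prop) (by fun_prop) (PT.bif (PT.decide_eq h1 h2) (by fun_prop)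
    (PT.pair (by fun_prop) h5))

theorem foldl_stpc_fst (a : List ℕ × List ℕ) (l : List ℕ) : ∀ s, (l.foldl (stpc a) s).1 = l.reverse ++ s.1 := by
  induction l with
  | nil => intro s; simp
  | cons b l ih => intro s; rw [List.foldl_cons, ih]; simp [stpc]

/-- The certificate is computed in polynomial time. -/
theorem PT_cert : PT cert := by
  have hl : PT fun a : List ℕ × List ℕ => a.1 ++ a.2 := by fun_prop
  have h1 := PT.foldl (g := stpc) (s := fun _ => ([], false, true))
    (l := fun a : List ℕ × List ℕ => a.1 ++ a.2) PT_stpc (by fun_prop) hl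
    (B := fun a => sz (a.1 ++ a.2) + 10) ((PT.bdd hl).add (PBd.const 10)) (by
      intro a l1 l2 h
      have h2 := foldl_stpc_fst a l1 ([], false, true)
      rw [sz_prod, sz_prod, h2, List.append_nil, sz_reverse]
      have h3 : sz l1 ≤ sz (a.1 ++ a.2) := by
        have h5 := sz_append l1 l2
        have h6 := one_le_sz l2
        rw [h]
        omega
      have h4 := sz_bool_le (l1.foldl (stpc a) ([], false, true)).2.1
      have h5 := sz_bool_le (l1.foldl (stpc a) ([], false, true)).2.2
      omega)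
  unfold cert
  exact PT.snd (PT.snd h1)

theorem foldl_done (a : List ℕ × List ℕ) (l : List ℕ) : ∀ s : List ℕ × Bool × Bool, s.2.1 = true →
    (l.foldl (stpc a) s).2 = s.2 := by
  induction l with
  | nil => intro s _; rfl
  | cons b l ih =>
    intro s hs
    have h1 : (stpc a s b).2 = s.2 := by simp [stpc, hs]
    rw [List.foldl_cons, ih _ (by rw [h1, hs]), h1]

theorem foldl_equal (a : List ℕ × List ℕ) (l : List ℕ) : ∀ s : List ℕ × Bool × Bool, s.2 = (false, true) →
    (∀ j, s.1.length ≤ j → j < s.1.length + l.length →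
      offn (mn (a.1 ++ a.2)) a.1 j = offn (mn (a.1 ++ a.2)) a.2 j) →
    (l.foldl (stpc a) s).2 = (false, true) := by
  induction l with
  | nil => intro s hs _; exact hs
  | cons b l ih =>
    intro s hs h
    have h0 := h s.1.length le_rfl (by simp)
    have h1 : (stpc a s b).2 = (false, true) := by simp [stpc, hs, h0]
    have h2 : (stpc a s b).1.length = s.1.length + 1 := by simp [stpc]
    rw [List.foldl_cons]
    apply ih _ h1
    intro j hj1 hj2
    rw [h2] at hj1 hj2
    exact h j (by omega) (by rw [List.length_cons]; omega)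

theorem foldl_first (a : List ℕ × List ℕ) (l : List ℕ) (j₀ : ℕ)
    (hj₀ : offn (mn (a.1 ++ a.2)) a.1 j₀ ≠ offn (mn (a.1 ++ a.2)) a.2 j₀) :
    ∀ s : List ℕ × Bool × Bool, s.2 = (false, true) → s.1.length ≤ j₀ → j₀ < s.1.length + l.length →
    (∀ j, s.1.length ≤ j → j < j₀ → offn (mn (a.1 ++ a.2)) a.1 j = offn (mn (a.1 ++ a.2)) a.2 j) →
    (l.foldl (stpc a) s).2 = (true, certj a j₀) := by
  induction l with
  | nil =>
    intro s _ h1 h2 _
    simp at h2
    omega
  | cons b l ih =>
    intro s hs h1 h2 h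
    have h3 : (stpc a s b).1.length = s.1.length + 1 := by simp [stpc]
    rw [List.foldl_cons]
    rcases Nat.lt_or_ge s.1.length j₀ with h4 | h4
    · have h0 := h s.1.length le_rfl h4
      have h5 : (stpc a s b).2 = (false, true) := by simp [stpc, hs, h0]
      apply ih _ h5
      · omega
      · rw [h3]
        rw [List.length_cons] at h2
        omega
      · intro j hj1 hj2
        exact h j (by omega) hj2
    · have h5 : s.1.length = j₀ := le_antisymm h1 h4
      have h6 : (stpc a s b).2 = (true, certj a j₀) := by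
        simp [stpc, hs, h5, hj₀]
      rw [foldl_done _ _ _ (by rw [h6]), h6]

theorem cert_equal {a : List ℕ × List ℕ}
    (h : ∀ j, offn (mn (a.1 ++ a.2)) a.1 j = offn (mn (a.1 ++ a.2)) a.2 j) : cert a = true := by
  rw [cert, foldl_equal a (a.1 ++ a.2) ([], false, true) rfl fun j _ _ => h j]

theorem cert_first {a : List ℕ × List ℕ} {j₀ : ℕ} (hlt : j₀ < a.1.length + a.2.length)
    (hj₀ : offn (mn (a.1 ++ a.2)) a.1 j₀ ≠ offn (mn (a.1 ++ a.2)) a.2 j₀)
    (h : ∀ j < j₀, offn (mn (a.1 ++ a.2)) a.1 j = offn (mn (a.1 ++ a.2)) a.2 j) :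
    cert a = certj a j₀ := by
  rw [cert, foldl_first a (a.1 ++ a.2) j₀ hj₀ ([], false, true) rfl (by simp)
    (by rw [List.length_append]; simpa using hlt) fun j _ hj => h j hj]

end Pool.Agent.Lib.H22Y
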