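import Pool.Agent.Lib.H22W.Final
import Pool.Agent.Lib.H22X.Prog
import Pool.Agent.Lib.H22Y.Cert

/-!
# The certificate is sound, and it is given on progressions
-/

open Finset Pool.Agent.Lib.H22W

namespace Pool.Agent.Lib.H22Y

theorem refined_bound {N h j : ℕ} {c : ℕ → ℤ} (hN : 1 ≤ N) (hm : ∀ i < j, mom h c i = 0) :
    |∑ x ∈ range (h + 1), (c x : ℝ) * √(1 + (x : ℝ) / N) - bc (1 / 2) j * mom h c j / N ^ j| ≤
      |bc (1 / 2) j| * (∑ x ∈ range (h + 1), |(c x : ℝ)| * (x : ℝ) ^ (j + 1)) / N ^ (j + 1) := by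
  have hN' : (0 : ℝ) < N := by exact_mod_cast hN
  have h1 : ∑ x ∈ range (h + 1), (c x : ℝ) * psm (1 / 2) (j + 1) ((x : ℝ) / N) =
      bc (1 / 2) j * mom h c j / N ^ j := by
    have e1 : ∀ i, ∑ x ∈ range (h + 1), (c x : ℝ) * (bc (1 / 2) i * ((x : ℝ) / N) ^ i) =
        bc (1 / 2) i * mom h c i / N ^ i := by
      intro i
      rw [mom]
      push_cast
      rw [mul_sum, sum_div]
      refine sum_congr rfl fun x _ => ?_
      rw [div_pow]
      ring
    simp only [psm, mul_sum]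
    rw [sum_comm, sum_range_succ, e1 j]
    have e2 : ∑ i ∈ range j, ∑ x ∈ range (h + 1), (c x : ℝ) * (bc (1 / 2) i * ((x : ℝ) / N) ^ i) = 0 := by
      apply sum_eq_zero
      intro i hi
      rw [e1 i, hm i (mem_range.1 hi)]
      simp
    rw [e2, zero_add]
  rw [← h1, ← sum_sub_distrib, mul_sum, sum_div]
  refine (abs_sum_le_sum_abs _ _).trans (sum_le_sum fun x _ => ?_)
  rw [← mul_sub, abs_mul]
  have h3 := abs_sqrt_sub (x := (x : ℝ) / N) (by positivity) j
  have h4 := abs_bc_succ_le j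
  have h6 : |bc (1 / 2) (j + 1)| * ((x : ℝ) / N) ^ (j + 1) ≤ |bc (1 / 2) j| * ((x : ℝ) / N) ^ (j + 1) := by
    gcongr
  have e : |bc (1 / 2) j| * (|(c x : ℝ)| * (x : ℝ) ^ (j + 1)) / N ^ (j + 1) =
      |(c x : ℝ)| * (|bc (1 / 2) j| * ((x : ℝ) / N) ^ (j + 1)) := by
    rw [div_pow]
    ring
  rw [e]
  exact mul_le_mul_of_nonneg_left (h3.trans h6) (abs_nonneg _)

theorem sign_of_cert {N h j : ℕ} {c : ℕ → ℤ} (hN : 1 ≤ N) (hm : ∀ i < j, mom h c i = 0)
    (hcert : (∑ x ∈ range (h + 1), |(c x : ℝ)| * (x : ℝ) ^ (j + 1)) < N * |(mom h c j : ℝ)|) :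
    0 < form N h c ↔ 0 < sg j * mom h c j := by
  have hN' : (0 : ℝ) < N := by exact_mod_cast hN
  have hs : 0 < √(N : ℝ) := Real.sqrt_pos.2 hN'
  have hT0 : 0 ≤ ∑ x ∈ range (h + 1), |(c x : ℝ)| * (x : ℝ) ^ (j + 1) :=
    sum_nonneg fun x _ => by positivity
  have hmj : (mom h c j : ℝ) ≠ 0 := by
    intro h0
    rw [h0, abs_zero, mul_zero] at hcert
    linarith
  set F := ∑ x ∈ range (h + 1), (c x : ℝ) * √(1 + (x : ℝ) / N) with hF
  set T := ∑ x ∈ range (h + 1), |(c x : ℝ)| * (x : ℝ) ^ (j + 1) with hT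
  have h1 := refined_bound hN hm
  rw [← hF, ← hT] at h1
  have hf : form N h c = √N * F := form_eq hN c
  set b := bc (1 / 2) j with hb
  have h3 : (1 / 4 : ℝ) ^ j ≤ |b| := le_abs_bc j
  have hb0 : 0 < |b| := lt_of_lt_of_le (by positivity) h3
  have hNj : (0 : ℝ) < N ^ j := by positivity
  have e1 : |b * mom h c j / N ^ j| = |b| * |(mom h c j : ℝ)| / N ^ j := by
    rw [abs_div, abs_mul, abs_of_pos hNj]
  have h4 : |b| * T / N ^ (j + 1) < |b * mom h c j / N ^ j| := by
    rw [e1, pow_succ, div_lt_div_iff₀ (by positivity) hNj]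
    have h5 : |b| * T * N ^ j < |b| * (N * |(mom h c j : ℝ)|) * N ^ j := by gcongr
    calc |b| * T * N ^ j < |b| * (N * |(mom h c j : ℝ)|) * N ^ j := h5
      _ = |b| * |(mom h c j : ℝ)| * (N ^ j * N) := by ring
  have h6 := abs_le.1 h1
  have hsg := sg_mul_bc_pos j
  rw [← hb] at hsg
  have hiff : (0 < sg j * mom h c j) ↔ 0 < b * mom h c j := by
    have e3 : ((sg j * mom h c j : ℤ) : ℝ) * (b * mom h c j) = ((sg j : ℝ) * b) * (mom h c j : ℝ) ^ 2 := by
      push_cast
      ring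
    have h7 : 0 < ((sg j * mom h c j : ℤ) : ℝ) * (b * mom h c j) := by
      rw [e3]
      positivity
    constructor
    · intro h8
      have h9 : 0 < ((sg j * mom h c j : ℤ) : ℝ) := by exact_mod_cast h8
      exact (pos_iff_pos_of_mul_pos h7).1 h9
    · intro h8
      have h9 := (pos_iff_pos_of_mul_pos h7).2 h8
      exact_mod_cast h9
  rw [hiff, hf]
  constructor
  · intro h7
    have h8 : 0 < F := (pos_iff_pos_of_mul_pos h7).1 hs
    by_contra h9
    push Not at h9
    have h10 : b * mom h c j / N ^ j ≤ 0 := div_nonpos_of_nonpos_of_nonneg h9 hNj.le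
    rw [abs_of_nonpos h10] at h4
    linarith [h6.2]
  · intro h7
    have h10 : 0 < b * mom h c j / N ^ j := div_pos h7 hNj
    rw [abs_of_pos h10] at h4
    have h8 : 0 < F := by linarith [h6.1]
    positivity

section

variable {N h : ℕ} {l₁ l₂ : List ℕ}

theorem tail_le (h₁ : ∀ m ∈ l₁, N ≤ m ∧ m ≤ N + h) (h₂ : ∀ m ∈ l₂, N ≤ m ∧ m ≤ N + h) (i : ℕ) :
    ∑ x ∈ range (h + 1), |cf N l₁ l₂ x| * (x : ℤ) ^ i ≤ psum N l₁ i + psum N l₂ i := by
  rw [psum, psum, ← sum_count (fun m => ((m : ℤ) - N) ^ i) l₁ h₁,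
    ← sum_count (fun m => ((m : ℤ) - N) ^ i) l₂ h₂, ← sum_add_distrib]
  refine sum_le_sum fun x _ => ?_
  have e : ((N + x : ℕ) : ℤ) - N = x := by
    push_cast
    ring
  rw [e, ← add_mul, cf]
  have h3 : |(l₁.count (N + x) : ℤ) - l₂.count (N + x)| ≤ (l₁.count (N + x) : ℤ) + l₂.count (N + x) := by
    rw [abs_le]
    constructor <;> omega
  exact mul_le_mul_of_nonneg_right h3 (by positivity)

end

/-- The certificate is sound. -/
theorem cert_sound (l₁ l₂ : List ℕ) (hc : cert (l₁, l₂) = true) :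
    sqrtLE (l₁, l₂) = true ↔ rsum l₁ ≤ rsum l₂ := by
  by_cases hp : l₁.Perm l₂
  · have h1 : sqrtLE (l₁, l₂) = true := sqrtLE_equal fun j => offn_perm hp
    rw [h1, rsum_perm hp]
    simp
  · set N := mn (l₁ ++ l₂) with hN
    set h := (l₁ ++ l₂).sum with hh
    have hl : ∀ m ∈ l₁ ++ l₂, N ≤ m ∧ m ≤ N + h := fun m hm =>
      ⟨mn_le hm, (List.le_sum_of_mem hm).trans (by omega)⟩
    have h₁ : ∀ m ∈ l₁, N ≤ m ∧ m ≤ N + h := fun m hm => hl m (List.mem_append_left _ hm)
    have h₂ : ∀ m ∈ l₂, N ≤ m ∧ m ≤ N + h := fun m hm => hl m (List.mem_append_right _ hm)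
    have hsupp := H22W.supp_nonempty h₁ h₂ hp
    obtain ⟨j, hj1, hj2⟩ := exists_first hsupp
    have hjn : j < l₁.length + l₂.length :=
      lt_of_lt_of_le (lt_card hsupp hj1) ((card_supp_le h _).trans (wt_cf h₁ h₂))
    have e₁ : ∀ i, psum N l₁ i = offn N l₁ i := psum_eq_offn fun m hm => (h₁ m hm).1
    have e₂ : ∀ i, psum N l₂ i = offn N l₂ i := psum_eq_offn fun m hm => (h₂ m hm).1
    have hmom : ∀ i, mom h (cf N l₁ l₂) i = (offn N l₁ i : ℤ) - offn N l₂ i := by
      intro i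
      rw [mom_cf h₁ h₂, e₁, e₂]
    have hne' : offn N l₁ j ≠ offn N l₂ j := by
      intro hcon
      apply hj2
      rw [hmom, hcon, sub_self]
    have heq : ∀ i < j, offn N l₁ i = offn N l₂ i := by
      intro i hi
      have := hj1 i hi
      rw [hmom] at this
      omega
    have h1 : sqrtLE (l₁, l₂) = ansj (l₁, l₂) j := sqrtLE_first hjn hne' heq
    have h3 : cert (l₁, l₂) = certj (l₁, l₂) j := cert_first hjn hne' heq
    rw [h3, certj, decide_eq_true_iff] at hc
    change offn N l₁ (j + 1) + offn N l₂ (j + 1) <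
      N * ((offn N l₁ j - offn N l₂ j) + (offn N l₂ j - offn N l₁ j)) at hc
    have hN1 : 1 ≤ N := by
      rcases Nat.eq_zero_or_pos N with h0 | h0
      · rw [h0, zero_mul] at hc
        omega
      · exact h0
    have habs : (((offn N l₁ j - offn N l₂ j) + (offn N l₂ j - offn N l₁ j) : ℕ) : ℤ) =
        |mom h (cf N l₁ l₂) j| := by
      rw [hmom]
      rcases le_total (offn N l₁ j) (offn N l₂ j) with h0 | h0
      · rw [abs_of_nonpos (by omega)]
        omega
      · rw [abs_of_nonneg (by omega)]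
        omega
    have hcz : ∑ x ∈ range (h + 1), |cf N l₁ l₂ x| * (x : ℤ) ^ (j + 1) < N * |mom h (cf N l₁ l₂) j| := by
      refine lt_of_le_of_lt (tail_le h₁ h₂ (j + 1)) ?_
      rw [e₁, e₂, ← habs]
      exact_mod_cast hc
    have hcr : (∑ x ∈ range (h + 1), |((cf N l₁ l₂ x : ℤ) : ℝ)| * (x : ℝ) ^ (j + 1)) <
        N * |((mom h (cf N l₁ l₂) j : ℤ) : ℝ)| := by
      have := (Int.cast_lt (R := ℝ)).2 hcz
      push_cast at this
      exact this
    have h4 := sign_of_cert hN1 hj1 hcr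
    rw [form_cf h₁ h₂, hmom, sub_pos] at h4
    have h2 := ansj_iff (a := (l₁, l₂)) (j := j) hne'
    rw [h1, h2]
    show ¬ 0 < sg j * ((offn N l₁ j : ℤ) - offn N l₂ j) ↔ _
    rw [← h4, not_lt]

theorem psum_le {N D h i : ℕ} {l : List ℕ} (hl : ∀ m ∈ l, ∃ x ≤ h, m = N + D * x) :
    psum N l i ≤ l.length * ((D : ℤ) * h) ^ i := by
  have h1 := List.sum_le_card_nsmul (l.map fun m : ℕ => ((m : ℤ) - N) ^ i) (((D : ℤ) * h) ^ i) (by
    intro y hy
    obtain ⟨m, hm, rfl⟩ := List.mem_map.1 hy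
    obtain ⟨x, hx, rfl⟩ := hl m hm
    have e : ((N + D * x : ℕ) : ℤ) - N = D * x := by
      push_cast
      ring
    rw [e]
    have h2 : (x : ℤ) ≤ h := by exact_mod_cast hx
    gcongr)
  rw [List.length_map, nsmul_eq_mul] at h1
  exact h1

/-- The certificate is given for entries in an arithmetic progression. -/
theorem cert_prog {N D h J : ℕ} {l₁ l₂ : List ℕ} (hD : 1 ≤ D) (hh : 1 ≤ h)
    (hl : ∀ m ∈ l₁ ++ l₂, ∃ x ≤ h, m = N + D * x)
    (hJ : √h * Real.log (2 * ((l₁.length + l₂.length : ℕ) : ℝ)) ≤ J)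
    (hbig : 2 * (l₁.length + l₂.length) * D * h ^ (J + 1) ≤ N) :
    cert (l₁, l₂) = true := by
  by_cases hp : l₁.Perm l₂
  · exact cert_equal fun j => offn_perm hp
  · have hne : l₁ ++ l₂ ≠ [] := by
      intro h0
      obtain ⟨h1, h2⟩ := List.append_eq_nil_iff.1 h0
      apply hp
      rw [h1, h2]
    have hmem := mn_mem hne
    obtain ⟨x₀, hx₀, hx₁⟩ := hl _ hmem
    set N' := mn (l₁ ++ l₂) with hN'
    have hNN' : N ≤ N' := by omega
    have hl' : ∀ m ∈ l₁ ++ l₂, ∃ x ≤ h, m = N' + D * x := by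
      intro m hm
      obtain ⟨x, hx, hx2⟩ := hl m hm
      have h1 : N' ≤ m := mn_le hm
      have h2 : x₀ ≤ x := by
        by_contra hcon
        push Not at hcon
        have : D * x < D * x₀ := Nat.mul_lt_mul_of_pos_left hcon (by omega)
        omega
      obtain ⟨y, rfl⟩ := Nat.exists_eq_add_of_le h2
      refine ⟨y, by omega, ?_⟩
      rw [hx2, hx₁]
      ring
    have hle : ∀ m ∈ l₁ ++ l₂, N' ≤ m := fun m hm => mn_le hm
    have h₁ : ∀ m ∈ l₁, ∃ x ≤ h, m = N' + D * x := fun m hm => hl' m (List.mem_append_left _ hm)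
    have h₂ : ∀ m ∈ l₂, ∃ x ≤ h, m = N' + D * x := fun m hm => hl' m (List.mem_append_right _ hm)
    have hsupp := H22X.supp_nonempty h₁ h₂ hp
    obtain ⟨j, hj1, hj2⟩ := exists_first hsupp
    have hw := H22X.wt_cd hD h₁ h₂
    have hjJ : j ≤ J := by
      have h3 := lt_cheb hh hsupp hj1
      have hM : (1 : ℝ) ≤ wt h (H22X.cd N' D l₁ l₂) := by exact_mod_cast one_le_wt hsupp
      have h4 : Real.log (2 * wt h (H22X.cd N' D l₁ l₂)) ≤
          Real.log (2 * ((l₁.length + l₂.length : ℕ) : ℝ)) := by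
        apply Real.log_le_log (by linarith)
        have : (wt h (H22X.cd N' D l₁ l₂) : ℝ) ≤ ((l₁.length + l₂.length : ℕ) : ℝ) := by exact_mod_cast hw
        linarith
      have h5 : √(h : ℝ) * Real.log (2 * wt h (H22X.cd N' D l₁ l₂)) ≤
          √h * Real.log (2 * ((l₁.length + l₂.length : ℕ) : ℝ)) := by
        gcongr
      have h6 : (j : ℝ) < ((J + 1 : ℕ) : ℝ) := by
        push_cast
        linarith
      have h7 : j < J + 1 := by exact_mod_cast h6
      omega
    have hn1 : 1 ≤ l₁.length + l₂.length := (one_le_wt hsupp).trans hw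
    have hjn : j < l₁.length + l₂.length :=
      lt_of_lt_of_le (lt_card hsupp hj1) ((card_supp_le h _).trans hw)
    have e₁ : ∀ i, psum N' l₁ i = offn N' l₁ i :=
      psum_eq_offn fun m hm => hle m (List.mem_append_left _ hm)
    have e₂ : ∀ i, psum N' l₂ i = offn N' l₂ i :=
      psum_eq_offn fun m hm => hle m (List.mem_append_right _ hm)
    have hDz : ∀ i, (0 : ℤ) < (D : ℤ) ^ i := fun i => pow_pos (by exact_mod_cast hD) i
    have hmom : ∀ i, (D : ℤ) ^ i * mom h (H22X.cd N' D l₁ l₂) i = (offn N' l₁ i : ℤ) - offn N' l₂ i := by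
      intro i
      rw [H22X.mom_cd hD h₁ h₂, e₁, e₂]
    have hne' : offn N' l₁ j ≠ offn N' l₂ j := by
      intro hcon
      apply hj2
      have := hmom j
      rw [hcon, sub_self] at this
      rcases mul_eq_zero.1 this with h5 | h5
      · exact absurd h5 (hDz j).ne'
      · exact h5
    have heq : ∀ i < j, offn N' l₁ i = offn N' l₂ i := by
      intro i hi
      have := hmom i
      rw [hj1 i hi, mul_zero] at this
      omega
    have h3 : cert (l₁, l₂) = certj (l₁, l₂) j := cert_first hjn hne' heq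
    rw [h3, certj, decide_eq_true_iff]
    show offn N' l₁ (j + 1) + offn N' l₂ (j + 1) <
      N' * ((offn N' l₁ j - offn N' l₂ j) + (offn N' l₂ j - offn N' l₁ j))
    have habs : (((offn N' l₁ j - offn N' l₂ j) + (offn N' l₂ j - offn N' l₁ j) : ℕ) : ℤ) =
        |(offn N' l₁ j : ℤ) - offn N' l₂ j| := by
      rcases le_total (offn N' l₁ j) (offn N' l₂ j) with h0 | h0
      · rw [abs_of_nonpos (by omega)]
        omega
      · rw [abs_of_nonneg (by omega)]
        omega
    have hlow : (D : ℤ) ^ j ≤ |(offn N' l₁ j : ℤ) - offn N' l₂ j| := by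
      rw [← hmom, abs_mul, abs_of_pos (hDz j)]
      exact le_mul_of_one_le_right (hDz j).le (Int.one_le_abs hj2)
    have hup : (offn N' l₁ (j + 1) : ℤ) + offn N' l₂ (j + 1) ≤
        (l₁.length + l₂.length : ℕ) * ((D : ℤ) * h) ^ (j + 1) := by
      rw [← e₁, ← e₂]
      have h5 := psum_le (i := j + 1) h₁
      have h6 := psum_le (i := j + 1) h₂
      push_cast
      linarith
    have hkey : (l₁.length + l₂.length) * D * h ^ (j + 1) < N' := by
      have h5 : h ^ (j + 1) ≤ h ^ (J + 1) := Nat.pow_le_pow_right hh (by omega)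
      have h6 : (l₁.length + l₂.length) * D * h ^ (j + 1) ≤ (l₁.length + l₂.length) * D * h ^ (J + 1) :=
        Nat.mul_le_mul le_rfl h5
      have h7 : 1 ≤ (l₁.length + l₂.length) * D * h ^ (j + 1) :=
        Nat.one_le_iff_ne_zero.2 (by positivity)
      have h8 : 2 * (l₁.length + l₂.length) * D * h ^ (J + 1) =
          2 * ((l₁.length + l₂.length) * D * h ^ (J + 1)) := by ring
      omega
    have hfin : (offn N' l₁ (j + 1) : ℤ) + offn N' l₂ (j + 1) <
        N' * |(offn N' l₁ j : ℤ) - offn N' l₂ j| := by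
      calc (offn N' l₁ (j + 1) : ℤ) + offn N' l₂ (j + 1)
          ≤ (l₁.length + l₂.length : ℕ) * ((D : ℤ) * h) ^ (j + 1) := hup
        _ = (((l₁.length + l₂.length) * D * h ^ (j + 1) : ℕ) : ℤ) * (D : ℤ) ^ j := by
            push_cast
            rw [mul_pow, pow_succ (D : ℤ) j]
            ring
        _ < (N' : ℤ) * (D : ℤ) ^ j := by
            have : (((l₁.length + l₂.length) * D * h ^ (j + 1) : ℕ) : ℤ) < (N' : ℤ) := by exact_mod_cast hkey
            exact mul_lt_mul_of_pos_right this (hDz j)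
        _ ≤ N' * |(offn N' l₁ j : ℤ) - offn N' l₂ j| :=
            mul_le_mul_of_nonneg_left hlow (by positivity)
    rw [← habs] at hfin
    exact_mod_cast hfin

end Pool.Agent.Lib.H22Y
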